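import Pool.Agent.helper63.TP.TW

/-! TP project, modules HU and NM. -/

set_option autoImplicit false

namespace Pool.Agent.helper90.TP

variable {I : Type} [LinearOrder I] {x : I → ℕ → ℕ} {F : ℕ → I → Finset I}

/-! ### module HU : the second kind of points -/

theorem dense_Y [Nonempty I] (hF : IsTower F) :
    Dense (Set.range (pr x F)) := by
  classical
  rw [dense_iff_inter_open]
  intro U hU hne
  rw [isOpen_iff] at hU
  obtain ⟨p, hp⟩ := hne
  rcases p with a | y
  · obtain ⟨n, hn⟩ := hU.1 a hp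
    let y : YPt F := ⟨pre (x a) n, insert a (F n a), by
      intro b hb
      rw [length_pre]
      rw [Finset.mem_insert] at hb
      rcases hb with hb | hb
      · rw [hb]
        exact Finset.subset_insert _ _
      · exact (hF.closed n a b hb).trans (Finset.subset_insert _ _)⟩
    refine ⟨pr x F y, hn ?_, ⟨y, rfl⟩⟩
    rw [pr_mem_W]
    refine ⟨by simp [y], ?_, ?_, by simp [y]⟩
    · intro i h _
      simp [y]
    · intro i h
      simp [y]
  · exact ⟨pr x F y, hp, ⟨y, rfl⟩⟩

/-- the points of the second kind form a Hurewicz subspace (they form a Lindelof P-space) -/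
theorem hurewicz_Y [Nonempty I] (hI : ∀ a : I, (Set.Iio a).Countable)
    (hU : ¬ (Set.univ : Set I).Countable) (hF : IsTower F) :
    HurewiczSpace (Set.range (pr x F)) := by
  classical
  intro U hUo hUc
  let q : YPt F → Set.range (pr x F) := fun y => ⟨pr x F y, ⟨y, rfl⟩⟩
  -- choose a member of every cover
  have hch : ∀ n, ∀ y : YPt F, ∃ s ∈ U n, q y ∈ s ∧ ∃ γ, ∀ y' : YPt F, pr x F y' ∈ N x F γ y → q y' ∈ s := by
    intro n y
    have h1 : q y ∈ ⋃₀ U n := by rw [hUc n]; exact Set.mem_univ _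
    obtain ⟨s, hs, hys⟩ := h1
    refine ⟨s, hs, hys, ?_⟩
    have h2 := hUo n s hs
    rw [isOpen_induced_iff] at h2
    obtain ⟨O, hO, hOs⟩ := h2
    rw [isOpen_iff] at hO
    have h3 : pr x F y ∈ O := by
      have : q y ∈ Subtype.val ⁻¹' O := by rw [hOs]; exact hys
      exact this
    obtain ⟨γ, hγ⟩ := hO.2 y h3
    refine ⟨γ, ?_⟩
    intro y' hy'
    rw [← hOs]
    exact hγ hy'
  choose V hV1 hV2 γ hγ using hch
  have hb : ∀ y : YPt F, ∃ δ, ∀ n, γ n y < δ := by
    intro y
    obtain ⟨δ, hδ⟩ := bdd hI hU (Set.countable_range (fun n => γ n y))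
    exact ⟨δ, fun n => hδ _ ⟨n, rfl⟩⟩
  choose δ hδ using hb
  have hVδ : ∀ n y (y' : YPt F), pr x F y' ∈ N x F (δ y) y → q y' ∈ V n y := by
    intro n y y' h
    exact hγ n y y' (N_anti (hδ y n).le y h)
  -- countably many points suffice
  have hS : ∀ t : List ℕ, ∃ S : Set (YPt F), S.Countable ∧
      ∀ y : YPt F, y.t = t → ∃ z ∈ S, pr x F y ∈ N x F (δ z) z := by
    intro t
    let mk : Cl F t.length → YPt F := fun G => ⟨t, G.1, G.2⟩
    obtain ⟨Δ, hΔc, hΔl, hΔ0, hΔΦ⟩ := closing hI (F := F) (l := t.length) (fun G _ => δ (mk G))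
      (Classical.arbitrary I)
    refine ⟨mk '' {G : Cl F t.length | ∀ a ∈ G.1, a ∈ Δ}, (TW_cl_countable hΔc).image _, ?_⟩
    rintro ⟨t', G', cl'⟩ ht
    simp only at ht
    subst ht
    obtain ⟨G, hG⟩ := exists_trace hF hΔl (⟨G', cl'⟩ : Cl F t'.length)
    have hGΔ : ∀ a ∈ G.1, a ∈ Δ := fun a ha => ((hG a).1 ha).2
    refine ⟨mk G, ⟨G, hGΔ, rfl⟩, ?_⟩
    rw [pr_mem_N]
    refine ⟨rfl, ?_⟩
    intro a ha
    have h1 : δ (mk G) ∈ Δ := hΔΦ G hGΔ _ hΔ0
    have h2 : a ∈ Δ := hΔl _ h1 a ha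
    have h3 := hG a
    simp only at h3
    show a ∈ G' ↔ a ∈ G.1
    rw [h3]
    exact ⟨fun h => ⟨h, h2⟩, fun h => h.1⟩
  choose S hSc hScov using hS
  have hTc : (⋃ t : List ℕ, S t).Countable := Set.countable_iUnion hSc
  have hTne : (⋃ t : List ℕ, S t).Nonempty := by
    obtain ⟨z, hz, _⟩ := hScov [] ⟨[], ∅, by simp⟩ rfl
    exact ⟨z, Set.mem_iUnion.mpr ⟨[], hz⟩⟩
  obtain ⟨f, hf⟩ := hTc.exists_eq_range hTne
  refine ⟨fun n => (fun i => V n (f i)) '' {i | i ≤ n}, ?_, ?_⟩
  · intro n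
    constructor
    · rintro s ⟨i, _, rfl⟩
      exact hV1 n (f i)
    · exact (Set.finite_le_nat n).image _
  · rintro ⟨p, ⟨y, rfl⟩⟩
    obtain ⟨z, hz, hyz⟩ := hScov y.t y rfl
    have hzT : z ∈ ⋃ t : List ℕ, S t := Set.mem_iUnion.mpr ⟨y.t, hz⟩
    rw [hf] at hzT
    obtain ⟨i, hi⟩ := hzT
    rw [Filter.eventually_atTop]
    refine ⟨i, ?_⟩
    intro n hn
    refine ⟨V n (f i), ⟨i, hn, rfl⟩, ?_⟩
    rw [hi]
    exact hVδ n z y hyz

/-! ### module NM -/

theorem not_menger [Nonempty I] (hx : IsScale x) :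
    ¬ MengerSpace (Sp x F) := by
  classical
  intro hM
  let V : ℕ → ℕ → Set (Sp x F) := fun n j => {p | match p with
    | Sum.inl a => x a n = j
    | Sum.inr y => ∃ h : n < y.t.length, y.t[n] = j}
  let Vi : ℕ → Set (Sp x F) := fun n => {p | match p with
    | Sum.inl _ => False
    | Sum.inr y => y.t.length ≤ n}
  have hVpl : ∀ n j a, pl x F a ∈ V n j ↔ x a n = j := fun _ _ _ => Iff.rfl
  have hVpr : ∀ n j y, pr x F y ∈ V n j ↔ ∃ h : n < y.t.length, y.t[n] = j := fun _ _ _ => Iff.rfl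
  have hVipl : ∀ n a, pl x F a ∈ Vi n ↔ False := fun _ _ => Iff.rfl
  have hVipr : ∀ n y, pr x F y ∈ Vi n ↔ y.t.length ≤ n := fun _ _ => Iff.rfl
  let U : ℕ → Set (Set (Sp x F)) := fun n => insert (Vi n) (Set.range (V n))
  have hUo : ∀ n, ∀ s ∈ U n, IsOpen s := by
    intro n s hs
    rw [isOpen_iff]
    rcases hs with rfl | ⟨j, rfl⟩
    · constructor
      · intro a ha
        exact absurd ha (by rw [hVipl]; exact id)
      · intro y hy
        refine ⟨Classical.arbitrary I, ?_⟩
        rintro (b | y') h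
        · exact h.elim
        · have h1 : y'.t = y.t := h.1
          have : y.t.length ≤ n := hy
          show y'.t.length ≤ n
          rw [h1]
          exact this
    · constructor
      · intro a ha
        refine ⟨n + 1, ?_⟩
        rw [hVpl] at ha
        rintro (b | y') h
        · show x b n = j
          rw [h.1 n (by omega), ha]
        · have h1 : n + 1 ≤ y'.t.length := h.1
          refine ⟨by omega, ?_⟩
          rw [h.2.1 n (by omega) (by omega), ha]
      · intro y hy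
        refine ⟨Classical.arbitrary I, ?_⟩
        rw [hVpr] at hy
        rintro (b | y') h
        · exact h.elim
        · have h1 : y'.t = y.t := h.1
          show ∃ h : n < y'.t.length, y'.t[n] = j
          rw [h1]
          exact hy
  have hUc : ∀ n, ⋃₀ U n = Set.univ := by
    intro n
    rw [Set.eq_univ_iff_forall]
    rintro (a | y)
    · exact ⟨V n (x a n), Or.inr ⟨_, rfl⟩, rfl⟩
    · by_cases h : y.t.length ≤ n
      · exact ⟨Vi n, Or.inl rfl, h⟩
      · exact ⟨V n (y.t[n]'(by omega)), Or.inr ⟨_, rfl⟩, ⟨by omega, rfl⟩⟩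
  obtain ⟨A, hA, hAc⟩ := hM U hUo hUc
  have hinj : ∀ n, Function.Injective (V n) := by
    intro n i j hij
    let y : YPt F := ⟨List.replicate (n + 1) i, ∅, by simp⟩
    have h1 : pr x F y ∈ V n i := by
      rw [hVpr]
      exact ⟨by simp [y], by simp [y]⟩
    rw [hij, hVpr] at h1
    obtain ⟨_, h2⟩ := h1
    simpa [y] using h2
  have hg : ∀ n, ∃ g, ∀ j, V n j ∈ A n → j < g := by
    intro n
    have hfin : {j | V n j ∈ A n}.Finite := (hA n).2.preimage (hinj n).injOn
    obtain ⟨m, hm⟩ := hfin.bddAbove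
    exact ⟨m + 1, fun j hj => Nat.lt_succ_of_le (hm hj)⟩
  choose g hg using hg
  obtain ⟨a, _, ha⟩ := hx.laver {u | ∀ i (h : i < u.length), g i ≤ u[i]} [] (by simp) (by
    intro u hu m
    refine ⟨max m (g u.length), le_max_left _ _, ?_⟩
    intro i hi
    rw [List.length_append, List.length_singleton] at hi
    by_cases h : i < u.length
    · rw [List.getElem_append_left h]
      exact hu i h
    · have : i = u.length := by omega
      subst this
      rw [List.getElem_append_right (le_refl _)]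
      simp)
  have hgx : ∀ n, g n ≤ x a n := by
    intro n
    have := ha (n + 1) (by simp) n (by simp)
    simpa using this
  have : pl x F a ∈ ⋃ n, ⋃₀ A n := by rw [hAc]; exact Set.mem_univ _
  rw [Set.mem_iUnion] at this
  obtain ⟨n, s, hs, hps⟩ := this
  rcases (hA n).1 hs with h | ⟨j, h⟩
  · rw [h] at hps
    exact hps
  · rw [← h] at hps hs
    have h1 := hg n j hs
    rw [hVpl] at hps
    have h2 := hgx n
    omega

end Pool.Agent.helper90.TP
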