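import Pool.Agent.helper90.TP.Defs

/-! TP project, modules TW and YC. -/

set_option autoImplicit false

namespace Pool.Agent.helper90.TP

variable {I : Type} [LinearOrder I]

/-! ### module TW -/

theorem exists_tower [WellFoundedLT I] (hI : ∀ a : I, (Set.Iio a).Countable) :
    ∃ F : ℕ → I → Finset I, IsTower F := by
  classical
  have hen : ∀ a : I, ∃ e : ℕ → I, ∀ b, b < a → ∃ n, e n = b := by
    intro a
    by_cases h : (Set.Iio a).Nonempty
    · obtain ⟨f, hf⟩ := (hI a).exists_eq_range h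
      refine ⟨f, ?_⟩
      intro b hb
      have : b ∈ Set.range f := by rw [← hf]; exact hb
      exact this
    · refine ⟨fun _ => a, ?_⟩
      intro b hb
      exact absurd ⟨b, hb⟩ h
  choose e he using hen
  let step : (a : I) → ((b : I) → b < a → ℕ → Finset I) → ℕ → Finset I := fun a rec n =>
    (Finset.range (n + 1)).biUnion (fun i => if h : e a i < a then insert (e a i) (rec (e a i) h n) else ∅)
  let G : I → ℕ → Finset I := (wellFounded_lt (α := I)).fix step
  have hG : ∀ a n, G a n = (Finset.range (n + 1)).biUnion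
      (fun i => if e a i < a then insert (e a i) (G (e a i) n) else ∅) := by
    intro a n
    have : G a = step a (fun b _ => G b) := (wellFounded_lt (α := I)).fix_eq step a
    rw [this]
    simp only [step]
    congr 1
  have hmem : ∀ a n b, b ∈ G a n ↔ ∃ i ≤ n, e a i < a ∧ (b = e a i ∨ b ∈ G (e a i) n) := by
    intro a n b
    rw [hG, Finset.mem_biUnion]
    constructor
    · rintro ⟨i, hi, hb⟩
      split_ifs at hb with h
      · rw [Finset.mem_insert] at hb
        exact ⟨i, by rw [Finset.mem_range] at hi; omega, h, hb⟩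
      · simp at hb
    · rintro ⟨i, hi, h, hb⟩
      refine ⟨i, by rw [Finset.mem_range]; omega, ?_⟩
      rw [if_pos h, Finset.mem_insert]
      exact hb
  refine ⟨fun n a => G a n, ?_, ?_, ?_, ?_⟩
  · intro n a
    induction a using WellFoundedLT.induction with
    | ind a ih =>
      intro b hb
      rw [hmem] at hb
      obtain ⟨i, _, h, hb | hb⟩ := hb
      · rw [hb]; exact h
      · exact (ih _ h b hb).trans h
  · intro m n a hmn
    induction a using WellFoundedLT.induction with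
    | ind a ih =>
      intro b hb
      rw [hmem] at hb ⊢
      obtain ⟨i, hi, h, hb⟩ := hb
      refine ⟨i, hi.trans hmn, h, ?_⟩
      rcases hb with hb | hb
      · exact Or.inl hb
      · exact Or.inr (ih _ h hb)
  · intro a b hb
    obtain ⟨n, hn⟩ := he a b hb
    refine ⟨n, ?_⟩
    rw [hmem]
    exact ⟨n, le_rfl, by rw [hn]; exact hb, Or.inl hn.symm⟩
  · intro n a
    induction a using WellFoundedLT.induction with
    | ind a ih =>
      intro b hb c hc
      rw [hmem] at hb ⊢
      obtain ⟨i, hi, h, hb | hb⟩ := hb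
      · subst hb
        exact ⟨i, hi, h, Or.inr hc⟩
      · exact ⟨i, hi, h, Or.inr (ih _ h b hb hc)⟩

theorem bdd (hI : ∀ a : I, (Set.Iio a).Countable) (hU : ¬ (Set.univ : Set I).Countable)
    {S : Set I} (hS : S.Countable) : ∃ γ, ∀ a ∈ S, a < γ := by
  by_contra hcon
  push Not at hcon
  apply hU
  have h1 : (Set.univ : Set I) ⊆ ⋃ a ∈ S, insert a (Set.Iio a) := by
    intro γ _
    obtain ⟨a, ha, hle⟩ := hcon γ
    simp only [Set.mem_iUnion]
    refine ⟨a, ha, ?_⟩
    rcases lt_or_eq_of_le hle with h | h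
    · exact Set.mem_insert_of_mem _ h
    · rw [h]; exact Set.mem_insert _ _
  exact (Set.Countable.biUnion hS (fun a _ => (hI a).insert a)).mono h1

theorem TW_cl_countable {F : ℕ → I → Finset I} {l : ℕ} {Δ : Set I} (hΔ : Δ.Countable) :
    {G : Cl F l | ∀ a ∈ G.1, a ∈ Δ}.Countable := by
  classical
  haveI : Countable Δ := hΔ.to_subtype
  have h1 : {G : Finset I | ∀ a ∈ G, a ∈ Δ}.Countable := by
    have : {G : Finset I | ∀ a ∈ G, a ∈ Δ} ⊆
        Set.range (fun G : Finset Δ => G.map (Function.Embedding.subtype _)) := by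
      intro G hG
      refine ⟨G.attach.map ⟨fun a => ⟨a.1, hG a.1 a.2⟩, ?_⟩, ?_⟩
      · intro a b hab
        simp only [Subtype.mk.injEq] at hab
        exact Subtype.ext hab
      · ext a
        simp only [Finset.mem_map, Finset.mem_attach, true_and, Subtype.exists,
          Function.Embedding.coeFn_mk, Function.Embedding.subtype_apply]
        constructor
        · rintro ⟨b, _, ⟨c, hc, hcb⟩, hba⟩
          simp only [Subtype.mk.injEq] at hcb
          rw [← hba, ← hcb]
          exact hc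
        · intro ha
          exact ⟨a, hG a ha, ⟨a, ha, rfl⟩, rfl⟩
    exact (Set.countable_range _).mono this
  have h2 : Function.Injective (fun G : Cl F l => G.1) := fun a b h => Subtype.ext h
  exact (h1.preimage_of_injOn h2.injOn)

/-- closing off -/
theorem closing (hI : ∀ a : I, (Set.Iio a).Countable) {F : ℕ → I → Finset I} {l : ℕ}
    (Φ : Cl F l → I → I) (γ0 : I) :
    ∃ Δ : Set I, Δ.Countable ∧ (∀ a ∈ Δ, ∀ b < a, b ∈ Δ) ∧ γ0 ∈ Δ ∧
      ∀ G : Cl F l, (∀ a ∈ G.1, a ∈ Δ) → ∀ γ ∈ Δ, Φ G γ ∈ Δ := by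
  classical
  have hIic : ∀ a : I, (Set.Iic a).Countable := by
    intro a
    have : Set.Iic a = insert a (Set.Iio a) := by
      ext b
      simp only [Set.mem_Iic, Set.mem_insert_iff, Set.mem_Iio]
      exact le_iff_eq_or_lt
    rw [this]
    exact (hI a).insert a
  let D : ℕ → Set I := fun k => Nat.rec (Set.Iic γ0)
    (fun _ D => D ∪ ⋃ G ∈ {G : Cl F l | ∀ a ∈ G.1, a ∈ D}, ⋃ γ ∈ D, Set.Iic (Φ G γ)) k
  have hD0 : D 0 = Set.Iic γ0 := rfl
  have hDs : ∀ k, D (k + 1) = D k ∪ ⋃ G ∈ {G : Cl F l | ∀ a ∈ G.1, a ∈ D k}, ⋃ γ ∈ D k, Set.Iic (Φ G γ) :=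
    fun k => rfl
  have hDc : ∀ k, (D k).Countable := by
    intro k
    induction k with
    | zero => rw [hD0]; exact hIic _
    | succ k ih =>
      rw [hDs]
      refine ih.union (Set.Countable.biUnion (TW_cl_countable ih) (fun G _ => ?_))
      exact Set.Countable.biUnion ih (fun γ _ => hIic _)
  have hDl : ∀ k, ∀ a ∈ D k, ∀ b < a, b ∈ D k := by
    intro k
    induction k with
    | zero =>
      intro a ha b hb
      rw [hD0] at ha ⊢
      exact hb.le.trans ha
    | succ k ih =>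
      intro a ha b hb
      rw [hDs] at ha ⊢
      rcases ha with ha | ha
      · exact Or.inl (ih a ha b hb)
      · right
        simp only [Set.mem_iUnion] at ha ⊢
        obtain ⟨G, hG, γ, hγ, h⟩ := ha
        exact ⟨G, hG, γ, hγ, hb.le.trans h⟩
  have hDm : ∀ k j, D k ⊆ D (k + j) := by
    intro k j
    induction j with
    | zero => exact subset_rfl
    | succ j ih =>
      refine ih.trans ?_
      have : k + (j + 1) = (k + j) + 1 := by ring
      rw [this, hDs]
      exact Set.subset_union_left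
  have hDfin : ∀ G : Finset I, (∀ a ∈ G, a ∈ ⋃ k, D k) → ∃ k, ∀ a ∈ G, a ∈ D k := by
    intro G
    induction G using Finset.induction_on with
    | empty => intro _; exact ⟨0, by simp⟩
    | insert a G _ ih =>
      intro h
      obtain ⟨k, hk⟩ := ih (fun b hb => h b (Finset.mem_insert_of_mem hb))
      have ha := h a (Finset.mem_insert_self _ _)
      rw [Set.mem_iUnion] at ha
      obtain ⟨j, hj⟩ := ha
      refine ⟨k + j, ?_⟩
      intro b hb
      rw [Finset.mem_insert] at hb
      rcases hb with hb | hb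
      · rw [hb, add_comm]
        exact hDm j k hj
      · exact hDm k j (hk b hb)
  refine ⟨⋃ k, D k, Set.countable_iUnion hDc, ?_, ?_, ?_⟩
  · intro a ha b hb
    rw [Set.mem_iUnion] at ha ⊢
    obtain ⟨k, hk⟩ := ha
    exact ⟨k, hDl k a hk b hb⟩
  · rw [Set.mem_iUnion]
    exact ⟨0, by rw [hD0]; exact Set.mem_Iic.mpr le_rfl⟩
  · intro G hG γ hγ
    obtain ⟨k, hk⟩ := hDfin G.1 hG
    rw [Set.mem_iUnion] at hγ
    obtain ⟨j, hj⟩ := hγ
    rw [Set.mem_iUnion]
    refine ⟨k + j + 1, ?_⟩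
    rw [hDs]
    right
    simp only [Set.mem_iUnion]
    exact ⟨G, fun a ha => hDm k j (hk a ha), γ, by rw [add_comm]; exact hDm j k hj, Set.mem_Iic.mpr le_rfl⟩

/-- the trace of a closed finite set on a lower set -/
theorem exists_trace {F : ℕ → I → Finset I} (hF : IsTower F) {l : ℕ} {Δ : Set I}
    (hΔ : ∀ a ∈ Δ, ∀ b < a, b ∈ Δ) (H : Cl F l) :
    ∃ G : Cl F l, ∀ a, a ∈ G.1 ↔ a ∈ H.1 ∧ a ∈ Δ := by
  classical
  refine ⟨⟨H.1.filter (fun a => a ∈ Δ), ?_⟩, ?_⟩
  · intro a ha b hb
    rw [Finset.mem_filter] at ha ⊢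
    exact ⟨H.2 a ha.1 hb, hΔ a ha.2 b (hF.lt l a b hb)⟩
  · intro a
    exact Finset.mem_filter

/-! ### module YC : covers of the second kind of points -/

theorem ycover (hI : ∀ a : I, (Set.Iio a).Countable) {F : ℕ → I → Finset I}
    (hF : IsTower F) {l : ℕ} (Φ : Cl F l → I → I) (hΦ : ∀ G γ, γ ≤ Φ G γ) (γ0 : I) :
    ∃ S : Set (Cl F l × I), S.Countable ∧ (∀ p ∈ S, γ0 ≤ p.2) ∧
      ∀ H : Cl F l, ∃ p ∈ S, Same (Φ p.1 p.2) H p.1 ∧
        {r ∈ S | ∃ H' : Cl F l, Same r.2 H' r.1 ∧ Same (Φ p.1 p.2) H' p.1}.Finite := by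
  classical
  obtain ⟨Δ, hΔc, hΔl, hΔ0, hΔΦ⟩ := closing hI Φ γ0
  have hne : {G : Cl F l | ∀ a ∈ G.1, a ∈ Δ}.Nonempty := ⟨⟨∅, by simp⟩, by simp⟩
  obtain ⟨g, hg⟩ := (TW_cl_countable (F := F) (l := l) hΔc).exists_eq_range hne
  have hgΔ : ∀ n, ∀ a ∈ (g n).1, a ∈ Δ := by
    intro n
    have : g n ∈ {G : Cl F l | ∀ a ∈ G.1, a ∈ Δ} := by rw [hg]; exact ⟨n, rfl⟩
    exact this
  let step : ℕ → Set (Cl F l × I) × I → Set (Cl F l × I) × I := fun n s =>
    if (∃ p ∈ s.1, Same (Φ p.1 p.2) (g n) p.1) then s else (insert (g n, s.2) s.1, Φ (g n) s.2)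
  let st : ℕ → Set (Cl F l × I) × I := fun n => Nat.rec (∅, γ0) (fun n s => step n s) n
  have hst0 : st 0 = (∅, γ0) := rfl
  have hsts : ∀ n, st (n + 1) = step n (st n) := fun n => rfl
  have hcases : ∀ n, ((∃ p ∈ (st n).1, Same (Φ p.1 p.2) (g n) p.1) ∧ st (n + 1) = st n) ∨
      ((∀ p ∈ (st n).1, ¬ Same (Φ p.1 p.2) (g n) p.1) ∧
        st (n + 1) = (insert (g n, (st n).2) (st n).1, Φ (g n) (st n).2)) := by
    intro n
    by_cases h : ∃ p ∈ (st n).1, Same (Φ p.1 p.2) (g n) p.1
    · left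
      exact ⟨h, by rw [hsts]; simp only [step]; rw [if_pos h]⟩
    · right
      refine ⟨?_, by rw [hsts]; simp only [step]; rw [if_neg h]⟩
      intro p hp hs
      exact h ⟨p, hp, hs⟩
  have hinv : ∀ n, (st n).1.Finite ∧ (st n).2 ∈ Δ ∧ γ0 ≤ (st n).2 ∧
      ∀ p ∈ (st n).1, γ0 ≤ p.2 ∧ Φ p.1 p.2 ∈ Δ ∧ Φ p.1 p.2 ≤ (st n).2 := by
    intro n
    induction n with
    | zero =>
      rw [hst0]
      exact ⟨Set.finite_empty, hΔ0, le_rfl, by simp⟩
    | succ n ih =>
      obtain ⟨i1, i2, i3, i4⟩ := ih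
      rcases hcases n with ⟨_, h⟩ | ⟨_, h⟩
      · rw [h]
        exact ⟨i1, i2, i3, i4⟩
      · rw [h]
        refine ⟨i1.insert _, hΔΦ _ (hgΔ n) _ i2, i3.trans (hΦ _ _), ?_⟩
        intro p hp
        rw [Set.mem_insert_iff] at hp
        rcases hp with hp | hp
        · rw [hp]
          exact ⟨i3, hΔΦ _ (hgΔ n) _ i2, le_rfl⟩
        · obtain ⟨j1, j2, j3⟩ := i4 p hp
          exact ⟨j1, j2, j3.trans (hΦ _ _)⟩
  have hmono1 : ∀ n, (st n).1 ⊆ (st (n + 1)).1 := by
    intro n
    rcases hcases n with ⟨_, h⟩ | ⟨_, h⟩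
    · rw [h]
    · rw [h]
      exact Set.subset_insert _ _
  have hmono : ∀ m k, (st m).1 ⊆ (st (m + k)).1 := by
    intro m k
    induction k with
    | zero => exact subset_rfl
    | succ k ih => exact ih.trans (hmono1 (m + k))
  refine ⟨⋃ n, (st n).1, Set.countable_iUnion (fun n => (hinv n).1.countable), ?_, ?_⟩
  · intro p hp
    rw [Set.mem_iUnion] at hp
    obtain ⟨n, hn⟩ := hp
    exact ((hinv n).2.2.2 p hn).1
  · intro H
    obtain ⟨G, hG⟩ := exists_trace hF hΔl H
    have hGmem : G ∈ {G : Cl F l | ∀ a ∈ G.1, a ∈ Δ} := fun a ha => ((hG a).1 ha).2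
    rw [hg] at hGmem
    obtain ⟨n, hn⟩ := hGmem
    -- some p in L_{n+1} captures g n
    have hp : ∃ p ∈ (st (n + 1)).1, Same (Φ p.1 p.2) (g n) p.1 := by
      rcases hcases n with ⟨⟨p, hp, hs⟩, h⟩ | ⟨_, h⟩
      · rw [h]
        exact ⟨p, hp, hs⟩
      · rw [h]
        exact ⟨(g n, (st n).2), Set.mem_insert _ _, fun a _ => Iff.rfl⟩
    obtain ⟨p, hp, hs⟩ := hp
    refine ⟨p, Set.mem_iUnion.mpr ⟨n + 1, hp⟩, ?_, ?_⟩
    · intro a ha
      have haΔ : a ∈ Δ := hΔl _ ((hinv (n + 1)).2.2.2 p hp).2.1 a ha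
      rw [← hs a ha, hn, hG a]
      exact ⟨fun h => ⟨h, haΔ⟩, fun h => h.1⟩
    · apply (hinv (n + 1)).1.subset
      rintro r ⟨hr, H', hr1, hr2⟩
      by_contra hrn
      -- r is added at some later step
      rw [Set.mem_iUnion] at hr
      obtain ⟨m, hm⟩ := hr
      have key : ∀ k, r ∈ (st (n + 1 + k)).1 → False := by
        intro k
        induction k with
        | zero => intro h; exact hrn h
        | succ k ih =>
          intro h
          rcases hcases (n + 1 + k) with ⟨_, h'⟩ | ⟨h2, h'⟩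
          · have : (st (n + 1 + (k + 1))).1 = (st (n + 1 + k)).1 := by
              have e : n + 1 + (k + 1) = n + 1 + k + 1 := by ring
              rw [e, h']
            rw [this] at h
            exact ih h
          · have : (st (n + 1 + (k + 1))).1 = insert (g (n + 1 + k), (st (n + 1 + k)).2) (st (n + 1 + k)).1 := by
              have e : n + 1 + (k + 1) = n + 1 + k + 1 := by ring
              rw [e, h']
            rw [this, Set.mem_insert_iff] at h
            rcases h with h | h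
            · have hp' := hmono (n + 1) k hp
              have hle := ((hinv (n + 1 + k)).2.2.2 p hp').2.2
              apply h2 p hp'
              intro a ha
              rw [h] at hr1
              have e1 := hr1 a (lt_of_lt_of_le ha hle)
              have e2 := hr2 a ha
              exact e1.symm.trans e2
            · exact ih h
      exact key m (by
        have := hmono m (n + 1)
        rw [add_comm m (n + 1)] at this
        exact this hm)

end Pool.Agent.helper90.TP
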